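import Mathlib

namespace Pool.Agent.Results.MP_a2bddf_an.Q1

open Filter Topology Real Finset

/-- `w` is positive and nondecreasing on `(0, δ)` and tends to `0` at `0+`. -/
def Gauge (δ : ℝ) (w : ℝ → ℝ) : Prop :=
  (∀ t ∈ Set.Ioo 0 δ, 0 < w t) ∧ MonotoneOn w (Set.Ioo 0 δ) ∧ Tendsto w (𝓝[>] 0) (𝓝 0)

lemma pick {δ : ℝ} {w : ℝ → ℝ} (d0 : 0 < δ) (hw : Tendsto w (𝓝[>] 0) (𝓝 0))
    (h1 : Tendsto (fun t => w t / t) (𝓝[>] 0) atTop) (ε : ℝ) (B : ℝ) : ∃ h ∈ Set.Ioo 0 δ,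
    (0 < ε → h < ε ∧ w h ≤ ε) ∧ B ≤ w h / h ∧ ∀ t ∈ Set.Ioc 0 h, w h / h ≤ 2 * (w t / t) := by
  have : ∀ᶠ t in 𝓝[>] (0 : ℝ), t < δ ∧ (0 < ε → t < ε ∧ w t ≤ ε) ∧ B ≤ w t / t ∧ 1 ≤ w t / t := by
    have a {c : ℝ} (hc : 0 < c) : ∀ᶠ t in 𝓝[>] (0 : ℝ), t < c := nhdsWithin_le_nhds (Iio_mem_nhds hc)
    refine (a d0).and (.and ?_ ((h1.eventually_ge_atTop B).and (h1.eventually_ge_atTop 1)))
    by_cases e : 0 < ε
    · exact ((a e).and (hw.eventually_le_const e)).mono fun _ h _ => h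
    · simp [e]
  obtain ⟨u, u0, hu⟩ := (nhdsGT_basis 0).eventually_iff.1 this
  have : Nonempty (Set.Ioo 0 u) := ⟨⟨u / 2, by constructor <;> linarith⟩⟩
  have b : 1 ≤ ⨅ t : Set.Ioo 0 u, w t / t := le_ciInf fun t => (hu t.2).2.2.2
  obtain ⟨⟨h, p⟩, q⟩ := exists_lt_of_ciInf_lt (show ⨅ t : Set.Ioo 0 u, w t / t < 2 * ⨅ t : Set.Ioo 0 u, w t / t by
    linarith)
  exact ⟨h, ⟨p.1, (hu p).1⟩, (hu p).2.1, (hu p).2.2.1, fun t ht => q.le.trans (mul_le_mul_of_nonneg_left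
    (ciInf_le ⟨1, by rintro _ ⟨t, rfl⟩; exact (hu t.2).2.2.2⟩ (⟨t, ht.1, ht.2.trans_lt p.2⟩ : Set.Ioo 0 u)) two_pos.le)⟩

theorem result (δ : ℝ) (w φ : ℝ → ℝ) (d0 : 0 < δ) (hw : Gauge δ w) (hφ : Gauge δ φ)
    (h1 : Tendsto (fun t => w t / t) (𝓝[>] 0) atTop) (h2 : Tendsto (fun t => w t / φ t) (𝓝[>] 0) atTop) :
    ∃ f : ℝ → ℝ, (∀ x h, 0 < |h| → |h| < δ → |f (x + h) - f x| < w |h|) ∧
      ∀ x C, ∃ᶠ h in 𝓝[≠] (0 : ℝ), C < |(f (x + h) - f x) / φ (|h|)| := by
  choose p p1 p2 p3 p4 using pick d0 hw.2.2 h1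
  let u : ℕ → ℝ := Nat.rec (p 1 0) fun _ t => p (min (t / 2) (w t / 16)) (16 * (w t / t))
  have u0 (k) : u k ∈ Set.Ioo 0 δ := by cases k <;> exact p1 _ _
  have u4 (k) : ∀ t ∈ Set.Ioc 0 (u k), w (u k) / u k ≤ 2 * (w t / t) := by cases k <;> exact p4 _ _
  have a0 (k) := hw.1 _ (u0 k)
  have u1 (k) := p2 (min (u k / 2) (w (u k) / 16)) (16 * (w (u k) / u k))
    (lt_min (half_pos (u0 k).1) (by linarith [a0 k]))
  have u2 (k) : u (k + 1) ≤ u k / 2 := (u1 k).1.le.trans (min_le_left _ _)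
  have u3 (k) : w (u (k + 1)) ≤ w (u k) / 16 := (u1 k).2.trans (min_le_right _ _)
  have u5 (k) : 16 * (w (u k) / u k) ≤ w (u (k + 1)) / u (k + 1) := p3 _ _
  generalize u = u at *
  have lu : Tendsto u atTop (𝓝[>] 0) := tendsto_nhdsWithin_iff.2 ⟨squeeze_zero (fun k => (u0 k).1.le)
    (fun k => le_geom (c := 1 / 2) (by norm_num) k fun k _ => by linarith [u2 k])
    (by simpa using (tendsto_pow_atTop_nhds_zero_of_lt_one (r := (1 / 2 : ℝ)) (by norm_num)
      (by norm_num)).mul_const (u 0)), .of_forall fun k => (u0 k).1⟩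
  have s1 (k) : ∑ j ∈ range k, w (u j) / u j ≤ w (u k) / u k / 15 := by
    induction k with
    | zero => have := a0 0; have := (u0 0).1; simp; positivity
    | succ k ih => rw [sum_range_succ]; linarith [u5 k]
  have g (k j) : w (u (j + k)) ≤ (1 / 16) ^ j * w (u k) := by
    simpa using le_geom (u := fun j => w (u (j + k))) (c := 1 / 16) (by norm_num) j fun j _ => by
      rw [add_right_comm]; linarith [u3 (j + k)]
  have G (c : ℝ) : HasSum (fun j : ℕ => (1 / 16 : ℝ) ^ j * c) (16 / 15 * c) := by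
    rw [show (16 / 15 : ℝ) = (1 - 1 / 16)⁻¹ by norm_num]
    exact (hasSum_geometric_of_lt_one (by norm_num) (by norm_num)).mul_right c
  have sm (x) : Summable fun j => w (u j) * sin (π * x / u j) := .of_norm_bounded (G (w (u 0))).summable
    fun j => by
      rw [norm_mul, norm_of_nonneg (a0 j).le]
      exact (mul_le_of_le_one_right (a0 j).le (abs_sin_le_one _)).trans (g 0 j)
  obtain ⟨D, hD⟩ : ∃ D : ℝ → ℝ → ℕ → ℝ,
    D = fun x h j => w (u j) * (sin (π * (x + h) / u j) - sin (π * x / u j)) := ⟨_, rfl⟩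
  have D2 (x h j) : |D x h j| ≤ 2 * w (u j) := by
    rw [hD, abs_mul, abs_of_pos (a0 j), mul_comm]
    gcongr
    · exact (a0 j).le
    · exact (abs_sub _ _).trans (by linarith [abs_sin_le_one (π * (x + h) / u j), abs_sin_le_one (π * x / u j)])
  have key (x h k) : |(∑' j, w (u j) * sin (π * (x + h) / u j)) - (∑' j, w (u j) * sin (π * x / u j)) -
      D x h k| ≤ π * |h| * ∑ j ∈ range k, w (u j) / u j + 2 * w (u k) / 15 := by
    have sD := (sm (x + h)).sub (sm x)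
    rw [← (sm _).tsum_sub (sm _), ← sD.sum_add_tsum_nat_add (k + 1), sum_range_succ]
    simp only [← mul_sub, show ∀ j, w (u j) * (sin (π * (x + h) / u j) - sin (π * x / u j)) = D x h j
      from fun j => by rw [hD]]
    rw [add_right_comm, add_sub_cancel_right, mul_sum]
    refine (abs_add_le _ _).trans (add_le_add ((abs_sum_le_sum_abs _ _).trans (sum_le_sum fun j _ => ?_))
      ((tsum_of_norm_bounded (f := fun j => D x h (j + (k + 1))) (G (2 * w (u k) / 16))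
        fun j => (D2 _ _ _).trans ?_).trans_eq
        (show 16 / 15 * (2 * w (u k) / 16) = 2 * w (u k) / 15 by ring)))
    · have := abs_sin_sub_sin_le (π * (x + h) / u j) (π * x / u j)
      rw [← sub_div, ← mul_sub, add_sub_cancel_left, abs_div, abs_mul, abs_of_pos pi_pos,
        abs_of_pos (u0 j).1] at this
      rw [hD, abs_mul, abs_of_pos (a0 j)]
      exact (mul_le_mul_of_nonneg_left this (a0 j).le).trans_eq (by ring)
    · have := g (k + 1) j
      have : (0 : ℝ) ≤ (1 / 16) ^ j := by positivity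
      nlinarith [u3 k]
  refine ⟨fun x => (∑' j, w (u j) * sin (π * x / u j)) / 9, fun x h h0 hδ => ?_, fun x C => ?_⟩
  · have ex : ∃ k, u k < |h| := ((lu.mono_right nhdsWithin_le_nhds).eventually_lt_const h0).exists
    have w0 := hw.1 _ ⟨h0, hδ⟩
    have a := hw.2.1 (u0 _) ⟨h0, hδ⟩ (Nat.find_spec ex).le
    have b : |h| * ∑ j ∈ range (Nat.find ex), w (u j) / u j ≤ 32 / 15 * w |h| := by
      rcases e : Nat.find ex with _ | k
      · simp; positivity
      have := u4 k _ ⟨h0, not_lt.1 (Nat.find_min ex (e ▸ k.lt_succ_self))⟩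
      rw [sum_range_succ, mul_comm, ← le_div_iff₀ h0, mul_div_assoc]
      linarith [s1 k]
    have c := abs_sub_abs_le_abs_sub _ _ |>.trans (key x h (Nat.find ex))
    rw [← sub_div, abs_div, abs_of_pos (a := (9 : ℝ)) (by norm_num), div_lt_iff₀ (by norm_num)]
    nlinarith [D2 x h (Nat.find ex), pi_lt_d2, pi_pos]
  have (k : ℕ) : ∃ h, (h = u k ∨ h = u k / 2) ∧ w (u k) / 2 ≤ |D x h k| := by
    have := (u0 k).1.ne'
    have a := a0 k
    simp only [hD, abs_mul, abs_of_pos a]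
    by_cases e : 1 / 4 ≤ |sin (π * x / u k)|
    · refine ⟨_, .inl rfl, ?_⟩
      rw [show π * (x + u k) / u k = π * x / u k + π by field_simp, sin_add_pi, ← neg_add', ← two_mul,
        abs_neg, abs_mul, abs_two]
      nlinarith
    · refine ⟨_, .inr rfl, ?_⟩
      rw [show π * (x + u k / 2) / u k = π * x / u k + π / 2 by field_simp, sin_add_pi_div_two]
      have b := abs_sub_abs_le_abs_sub (cos (π * x / u k)) (sin (π * x / u k))
      have c := sin_sq_add_cos_sq (π * x / u k)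
      rw [← sq_abs, ← sq_abs (cos _)] at c
      have : 3 / 4 ≤ |cos (π * x / u k)| := by
        nlinarith [abs_nonneg (sin (π * x / u k)), abs_nonneg (cos (π * x / u k))]
      nlinarith
  choose h e1 e2 using this
  have h0 (k) : 0 < h k ∧ h k ≤ u k := by
    have := (u0 k).1; rcases e1 k with e | e <;> rw [e] <;> constructor <;> linarith
  refine (tendsto_nhdsWithin_iff.2 ⟨squeeze_zero (fun k => (h0 k).1.le) (fun k => (h0 k).2)
    (lu.mono_right nhdsWithin_le_nhds), .of_forall fun k => (h0 k).1.ne'⟩ : Tendsto h atTop (𝓝[≠] 0)).frequently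
    (((h2.comp lu).eventually_gt_atTop (90 * |C|)).mono fun k hk => ?_).frequently
  have m : h k ∈ Set.Ioo 0 δ := ⟨(h0 k).1, (h0 k).2.trans_lt (u0 k).2⟩
  have f0 := hφ.1 _ m
  have f1 := hφ.2.1 m (u0 k) (h0 k).2
  have c := abs_sub_abs_le_abs_sub _ _ |>.trans ((abs_sub_comm _ _).trans_le (key x (h k) k))
  have b : h k * ∑ j ∈ range k, w (u j) / u j ≤ w (u k) / 15 :=
    (mul_le_mul (h0 k).2 (s1 k) (sum_nonneg fun j _ => (div_pos (a0 j) (u0 j).1).le) (u0 k).1.le).trans_eq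
      (by have := (u0 k).1.ne'; field_simp)
  have := (lt_div_iff₀ (f0.trans_le f1)).1 hk
  rw [abs_of_pos (h0 k).1] at c ⊢
  rw [abs_div, abs_of_pos f0, lt_div_iff₀ f0, ← sub_div, abs_div, abs_of_pos (a := (9 : ℝ)) (by norm_num)]
  have := mul_le_mul (le_abs_self C) f1 f0.le (abs_nonneg C)
  nlinarith [e2 k, pi_lt_d2, pi_pos, a0 k]

end Pool.Agent.Results.MP_a2bddf_an.Q1
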